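import Pool.Agent.H362R2.CM.Expo

/-!
Iterates of an affine map `x ↦ D x + e`: a quarter of the iterates `S^(m i)` take infinitely many
primes to primes.
-/

set_option autoImplicit false

namespace Pool.Agent.H447R3.IT

open Finset Pool.Agent.H362R2.CM

/-- the affine map -/
def S (D : ℕ) (e : ℤ) (x : ℤ) : ℤ := D * x + e

/-- the constant term of the `j`-th iterate -/
def B (D : ℕ) (e : ℤ) (j : ℕ) : ℤ := e * ∑ t ∈ range j, (D : ℤ) ^ t

theorem B_zero (D : ℕ) (e : ℤ) : B D e 0 = 0 := by simp [B]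

theorem B_succ (D : ℕ) (e : ℤ) (j : ℕ) : B D e (j + 1) = D * B D e j + e := by
  unfold B
  rw [Finset.sum_range_succ', pow_zero, mul_add, mul_one, Finset.mul_sum, Finset.mul_sum,
    Finset.mul_sum]
  congr 1
  apply Finset.sum_congr rfl
  intro t _
  ring

theorem iter (D : ℕ) (e : ℤ) (j : ℕ) (x : ℤ) : (S D e)^[j] x = (D : ℤ) ^ j * x + B D e j := by
  induction j with
  | zero => simp [B_zero]
  | succ j ih =>
    rw [Function.iterate_succ_apply', ih, B_succ, S]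
    ring

theorem iter_add (D : ℕ) (e : ℤ) (i j : ℕ) (x : ℤ) :
    (D : ℤ) ^ (i + j) * x + B D e (i + j) =
      (D : ℤ) ^ j * ((D : ℤ) ^ i * x + B D e i) + B D e j := by
  have h := iter D e (j + i) x
  rw [Function.iterate_add_apply, iter, iter, add_comm j i] at h
  exact h.symm

/-- `(D - 1) B = e (D ^ j - 1)` -/
theorem B_mul (D : ℕ) (e : ℤ) (j : ℕ) : ((D : ℤ) - 1) * B D e j = e * ((D : ℤ) ^ j - 1) := by
  unfold B
  have := Commute.geom_sum₂_mul (Commute.all (D : ℤ) 1) j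
  simp only [one_pow, mul_one] at this
  linear_combination e * this

/-- the good exponents -/
def ExpSet (D : ℕ) (e : ℤ) (m : ℕ) : Set ℕ :=
  {i : ℕ | {q : ℕ | q.Prime ∧ 0 < (S D e)^[m * i] (q : ℤ) ∧ Prime ((S D e)^[m * i] (q : ℤ))}.Infinite}

theorem expSet_of_pairPrime {D : ℕ} {e : ℤ} {m : ℕ} (hD : 2 ≤ D) {x y : ℕ} (hxy : x < y)
    (h : PairPrime ((D : ℤ) ^ (m * x), B D e (m * x)) ((D : ℤ) ^ (m * y), B D e (m * y))) :
    y - x ∈ ExpSet D e m := by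
  have hDpos : (0 : ℤ) < (D : ℤ) ^ (m * x) := by positivity
  have hinj : Set.InjOn (fun n : ℕ => ((D : ℤ) ^ (m * x) * (n : ℤ) + B D e (m * x)).toNat)
      {n : ℕ | (0 < (D : ℤ) ^ (m * x) * (n : ℤ) + B D e (m * x) ∧
        Prime ((D : ℤ) ^ (m * x) * (n : ℤ) + B D e (m * x))) ∧
        (0 < (D : ℤ) ^ (m * y) * (n : ℤ) + B D e (m * y) ∧
        Prime ((D : ℤ) ^ (m * y) * (n : ℤ) + B D e (m * y)))} := by
    intro n hn n' hn' h
    have h1 : (((D : ℤ) ^ (m * x) * (n : ℤ) + B D e (m * x)).toNat : ℤ) =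
        (((D : ℤ) ^ (m * x) * (n' : ℤ) + B D e (m * x)).toNat : ℤ) := by
      exact_mod_cast h
    rw [Int.toNat_of_nonneg hn.1.1.le, Int.toNat_of_nonneg hn'.1.1.le] at h1
    have h2 : (D : ℤ) ^ (m * x) * (n : ℤ) = (D : ℤ) ^ (m * x) * (n' : ℤ) := by linarith
    have h3 := mul_left_cancel₀ hDpos.ne' h2
    exact_mod_cast h3
  refine (h.image hinj).mono ?_
  rintro _ ⟨n, hn, rfl⟩
  obtain ⟨⟨h1, h2⟩, h3, h4⟩ := hn
  simp only [Set.mem_ofPred_eq] at h1 h2 h3 h4 ⊢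
  have e0 : (S D e)^[m * (y - x)] ((((D : ℤ) ^ (m * x) * (n : ℤ) + B D e (m * x)).toNat : ℕ) : ℤ) =
      (D : ℤ) ^ (m * y) * (n : ℤ) + B D e (m * y) := by
    rw [Int.toNat_of_nonneg h1.le, iter]
    have e1 : m * y = m * x + m * (y - x) := by
      rw [← mul_add]; congr 1; omega
    rw [e1, iter_add]
  refine ⟨?_, ?_, ?_⟩
  · rw [Nat.prime_iff_prime_int, Int.toNat_of_nonneg h1.le]; exact h2
  · rw [e0]; exact h3
  · rw [e0]; exact h4

theorem adm {D : ℕ} {e : ℤ} {m : ℕ} (hD : 2 ≤ D) (hcop : IsCoprime e (D : ℤ))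
    (hm : ∀ p : ℕ, p.Prime → p ∣ D - 1 → (p : ℤ) ∣ e * m) {p : ℕ} (hp : p.Prime) :
    ∃ n : ℤ, ∀ x : ℕ, ¬ (p : ℤ) ∣ (D : ℤ) ^ (m * x) * n + B D e (m * x) := by
  have hpI := Nat.prime_iff_prime_int.1 hp
  by_cases hpD : p ∣ D - 1
  · -- the form is `n` modulo `p`
    refine ⟨1, fun x h => ?_⟩
    have hD1 : (D : ℤ) ≡ 1 [ZMOD p] := by
      have h1 : ((p : ℕ) : ℤ) ∣ ((D - 1 : ℕ) : ℤ) := by exact_mod_cast hpD
      rw [Nat.cast_sub (by omega)] at h1
      exact (Int.modEq_iff_dvd.2 (by simpa using h1)).symm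
    have hB : B D e (m * x) ≡ 0 [ZMOD p] := by
      have h1 : ∑ t ∈ range (m * x), (D : ℤ) ^ t ≡ ∑ t ∈ range (m * x), (1 : ℤ) [ZMOD p] := by
        apply Int.ModEq.sum
        intro t _
        simpa using hD1.pow t
      have h2 : B D e (m * x) ≡ e * ∑ t ∈ range (m * x), (1 : ℤ) [ZMOD p] := h1.mul_left e
      refine h2.trans ?_
      rw [Int.modEq_zero_iff_dvd]
      simp only [sum_const, card_range, nsmul_eq_mul, mul_one]
      push_cast
      have h3 := (hm p hp hpD).mul_right (x : ℤ)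
      rwa [mul_assoc] at h3
    have h3 : (D : ℤ) ^ (m * x) * 1 + B D e (m * x) ≡ 1 [ZMOD p] := by
      have := (hD1.pow (m * x)).add hB
      simpa using this
    have h4 : (p : ℤ) ∣ 1 := (Int.modEq_zero_iff_dvd).1 (h3.symm.trans ((Int.modEq_zero_iff_dvd).2 h))
    exact hpI.not_dvd_one h4
  · by_cases hpe : (p : ℤ) ∣ e
    · refine ⟨1, fun x h => ?_⟩
      have h1 : (p : ℤ) ∣ B D e (m * x) := by unfold B; exact hpe.mul_right _
      have h2 : (p : ℤ) ∣ (D : ℤ) ^ (m * x) := by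
        have := (dvd_add_left h1).1 h
        simpa using this
      have h3 : (p : ℤ) ∣ (D : ℤ) := hpI.dvd_of_dvd_pow h2
      exact hpI.not_isUnit (hcop.isUnit_of_dvd' hpe h3)
    · -- the fixed point
      have h1 : IsCoprime ((D : ℤ) - 1) (p : ℤ) := by
        rw [isCoprime_comm]
        refine (hpI.coprime_iff_not_dvd).2 ?_
        intro h
        apply hpD
        have h2 : ((p : ℕ) : ℤ) ∣ ((D - 1 : ℕ) : ℤ) := by
          rw [Nat.cast_sub (by omega)]; simpa using h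
        exact_mod_cast h2
      obtain ⟨u, v, huv⟩ := h1
      refine ⟨-(e * u), fun x h => hpe ?_⟩
      have h2 : (p : ℤ) ∣ ((D : ℤ) - 1) * ((D : ℤ) ^ (m * x) * (-(e * u)) + B D e (m * x)) :=
        h.mul_left _
      rw [mul_add, B_mul] at h2
      have h3 : ((D : ℤ) - 1) * ((D : ℤ) ^ (m * x) * (-(e * u))) + e * ((D : ℤ) ^ (m * x) - 1) =
          (p : ℤ) * ((D : ℤ) ^ (m * x) * e * v) - e := by
        linear_combination (-(D : ℤ) ^ (m * x) * e) * huv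
      rw [h3] at h2
      exact (dvd_sub_right (dvd_mul_right _ _)).1 h2

theorem not_sys (D : ℕ) (e : ℤ) (m : ℕ) (hD : 2 ≤ D) (hcop : IsCoprime e (D : ℤ)) (hm0 : 0 < m)
    (hm : ∀ p : ℕ, p.Prime → p ∣ D - 1 → (p : ℤ) ∣ e * m) :
    ∃ K, ¬ Sys (ExpSet D e m) Set.univ 1 (4 + 1) K := by
  obtain ⟨K, hK, h5⟩ := five_classes
  refine ⟨K, ?_⟩
  rintro ⟨A, hA1, _, _, hA4⟩
  set ε : Fin 5 → Fin K → ℕ := fun g i => (A g).orderEmbOfFin (hA1 g) i with he
  have hemem : ∀ g i, ε g i ∈ A g := fun g i => Finset.orderEmbOfFin_mem _ _ _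
  have hDinj : Function.Injective (fun x : ℕ => (D : ℤ) ^ (m * x)) := by
    intro x y hxy
    simp only at hxy
    have h1 : (D : ℕ) ^ (m * x) = D ^ (m * y) := by exact_mod_cast hxy
    have h2 := Nat.pow_right_injective hD h1
    exact Nat.eq_of_mul_eq_mul_left hm0 h2
  obtain ⟨g, g', i, i', hne, hpp⟩ := h5
    (fun g i => ((D : ℤ) ^ (m * ε g i), B D e (m * ε g i)))
    (fun g i => by positivity)
    (by
      rintro ⟨g, i⟩ ⟨g', i'⟩ h
      simp only [Prod.mk.injEq] at h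
      have h1 : ε g i = ε g' i' := hDinj h.1
      by_cases hg : g = g'
      · subst hg
        have h2 : i = i' := by
          have := h1
          simp only [he] at this
          exact (A g).orderEmbOfFin (hA1 g) |>.injective this
        rw [h2]
      · exact absurd h1 (hA4 g g' hg _ (hemem g i) _ (hemem g' i')).1)
    (by
      intro p hp
      obtain ⟨n, hn⟩ := adm (m := m) hD hcop hm hp
      exact ⟨n, fun g i => hn _⟩)
  have h6 := hA4 g g' hne _ (hemem g i) _ (hemem g' i')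
  rcases lt_or_gt_of_ne h6.1 with h | h
  · exact h6.2 h (expSet_of_pairPrime hD h hpp)
  · exact (hA4 g' g hne.symm _ (hemem g' i') _ (hemem g i)).2 h (expSet_of_pairPrime hD h hpp.symm)

/-- **a quarter of the iterates** -/
theorem iter_density (D : ℕ) (e : ℤ) (m : ℕ) (hD : 2 ≤ D) (hcop : IsCoprime e (D : ℤ)) (hm0 : 0 < m)
    (hm : ∀ p : ℕ, p.Prime → p ∣ D - 1 → (p : ℤ) ∣ e * m) (ε : ℝ) (hε : 0 < ε) :
    ∃ N0 : ℕ, ∀ N ≥ N0, (1 / 4 - ε) * (N : ℝ) ≤
      ({i : ℕ | 1 ≤ i ∧ i ≤ N ∧ {q : ℕ | q.Prime ∧ 0 < (fun x : ℤ => (D : ℤ) * x + e)^[m * i] (q : ℤ) ∧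
        Prime ((fun x : ℤ => (D : ℤ) * x + e)^[m * i] (q : ℤ))}.Infinite}.ncard : ℝ) := by
  classical
  obtain ⟨K, hK⟩ := not_sys D e m hD hcop hm0 hm
  obtain ⟨N0, hN0⟩ := anchors (ExpSet D e m) Set.univ 1 4 K one_pos (by norm_num) hK ε hε
  refine ⟨N0, fun N hN => ?_⟩
  have h1 := hN0 N hN
  simp only [Set.mem_univ, Finset.filter_true, card_range] at h1
  have h2 : ({i : ℕ | 1 ≤ i ∧ i ≤ N ∧ {q : ℕ | q.Prime ∧
        0 < (fun x : ℤ => (D : ℤ) * x + e)^[m * i] (q : ℤ) ∧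
        Prime ((fun x : ℤ => (D : ℤ) * x + e)^[m * i] (q : ℤ))}.Infinite} : Set ℕ) =
      (((range (N + 1)).filter (fun d => 0 < d ∧ d ∈ ExpSet D e m) : Finset ℕ) : Set ℕ) := by
    ext j
    rw [Finset.mem_coe, mem_filter, mem_range, Set.mem_ofPred_eq]
    constructor
    · rintro ⟨h1, h2, h3⟩; exact ⟨by omega, by omega, h3⟩
    · rintro ⟨h1, h2, h3⟩; exact ⟨by omega, by omega, h3⟩
  rw [h2, Set.ncard_coe_finset]
  refine le_trans ?_ h1
  push_cast
  linarith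

end Pool.Agent.H447R3.IT
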